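import Mathlib

/-!
# MP_3bdb72_co: weighted matchings in random bipartite graphs

Definitions, and: averaging the weights over a set of symmetries of the probability matrix does not
increase the expected maximum matching weight.
-/

namespace MP3bdb72H79

open Finset

/-- A set of cells `(i, j)` (edges from the left vertex `i` to the right vertex `j`) no two of which
share an end. -/
def IsMatching {n : ℕ} (M : Finset (Fin n × Fin n)) : Prop :=
  ∀ e ∈ M, ∀ f ∈ M, (e.1 = f.1 ∨ e.2 = f.2) → e = f

/-- The largest weight of a matching contained in the edge set `R`. -/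
noncomputable def maxWeight {n : ℕ} (w : Fin n → Fin n → ℝ) (R : Finset (Fin n × Fin n)) : ℝ :=
  sSup {x : ℝ | ∃ M : Finset (Fin n × Fin n), M ⊆ R ∧ IsMatching M ∧ x = ∑ e ∈ M, w e.1 e.2}

/-- The probability that the random edge set is `R`, edges being present independently, the edge
`(i, j)` with probability `a i j`. -/
noncomputable def prob {n : ℕ} (a : Fin n → Fin n → ℝ) (R : Finset (Fin n × Fin n)) : ℝ :=
  (∏ e ∈ R, a e.1 e.2) * ∏ e ∈ Rᶜ, (1 - a e.1 e.2)

/-- `Φ_n(A, W)`: the expected weight of a maximum-weight matching of the random graph. -/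
noncomputable def Phi {n : ℕ} (a w : Fin n → Fin n → ℝ) : ℝ :=
  ∑ R : Finset (Fin n × Fin n), prob a R * maxWeight w R

/-- Doubly stochastic matrices. -/
structure DoublyStochastic {n : ℕ} (a : Fin n → Fin n → ℝ) : Prop where
  nonneg : ∀ i j, 0 ≤ a i j
  row : ∀ i, ∑ j, a i j = 1
  col : ∀ j, ∑ i, a i j = 1

/-- Admissible pairs `(A, W)`. -/
structure Admissible {n : ℕ} (a w : Fin n → Fin n → ℝ) : Prop where
  stoch : DoublyStochastic a
  nonneg : ∀ i j, 0 ≤ w i j
  total : ∑ i, ∑ j, w i j * a i j = 1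

/-- The weight matrix whose entries are moved by the row permutation `s.1` and the column
permutation `s.2`. -/
def move {n : ℕ} (s : Equiv.Perm (Fin n) × Equiv.Perm (Fin n)) (w : Fin n → Fin n → ℝ) :
    Fin n → Fin n → ℝ := fun i j => w (s.1 i) (s.2 j)

/-- The average of the weight matrices `move s w`, `s ∈ G`. -/
noncomputable def average {n : ℕ} (G : Finset (Equiv.Perm (Fin n) × Equiv.Perm (Fin n)))
    (w : Fin n → Fin n → ℝ) : Fin n → Fin n → ℝ :=
  fun i j => (∑ s ∈ G, w (s.1 i) (s.2 j)) / (G.card : ℝ)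

variable {n : ℕ}

lemma wset_finite (w : Fin n → Fin n → ℝ) (R : Finset (Fin n × Fin n)) :
    {x : ℝ | ∃ M : Finset (Fin n × Fin n), M ⊆ R ∧ IsMatching M ∧ x = ∑ e ∈ M, w e.1 e.2}.Finite := by
  apply (Set.finite_range (fun M : Finset (Fin n × Fin n) => ∑ e ∈ M, w e.1 e.2)).subset
  rintro x ⟨M, -, -, rfl⟩
  exact ⟨M, rfl⟩

lemma le_maxWeight (w : Fin n → Fin n → ℝ) {R M : Finset (Fin n × Fin n)} (h : M ⊆ R)
    (hM : IsMatching M) : ∑ e ∈ M, w e.1 e.2 ≤ maxWeight w R :=
  le_csSup (wset_finite w R).bddAbove ⟨M, h, hM, rfl⟩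

lemma maxWeight_le (w : Fin n → Fin n → ℝ) {R : Finset (Fin n × Fin n)} {c : ℝ}
    (h : ∀ M : Finset (Fin n × Fin n), M ⊆ R → IsMatching M → ∑ e ∈ M, w e.1 e.2 ≤ c) :
    maxWeight w R ≤ c := by
  apply csSup_le
  · exact ⟨_, ∅, Finset.empty_subset _, fun e he => absurd he (Finset.notMem_empty e), rfl⟩
  · rintro x ⟨M, h1, h2, rfl⟩
    exact h M h1 h2

/-- The permutation of the cells given by a pair of permutations. -/
def cell (s : Equiv.Perm (Fin n) × Equiv.Perm (Fin n)) : (Fin n × Fin n) ≃ (Fin n × Fin n) :=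
  Equiv.prodCongr s.1 s.2

lemma isMatching_map (s : Equiv.Perm (Fin n) × Equiv.Perm (Fin n)) {M : Finset (Fin n × Fin n)}
    (h : IsMatching M) : IsMatching (M.map (cell s).toEmbedding) := by
  intro e he f hf hef
  rw [Finset.mem_map] at he hf
  obtain ⟨e', he', rfl⟩ := he
  obtain ⟨f', hf', rfl⟩ := hf
  have : e' = f' := by
    apply h e' he' f' hf'
    rcases hef with hef | hef
    · left; exact s.1.injective hef
    · right; exact s.2.injective hef
  rw [this]

lemma maxWeight_move_le (s : Equiv.Perm (Fin n) × Equiv.Perm (Fin n)) (w : Fin n → Fin n → ℝ)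
    (R : Finset (Fin n × Fin n)) :
    maxWeight (move s w) R ≤ maxWeight w (R.map (cell s).toEmbedding) := by
  apply maxWeight_le
  intro M hM hM2
  have h1 : ∑ e ∈ M, move s w e.1 e.2 = ∑ e ∈ M.map (cell s).toEmbedding, w e.1 e.2 := by
    rw [Finset.sum_map]
    rfl
  rw [h1]
  exact le_maxWeight w (Finset.map_subset_map.mpr hM) (isMatching_map s hM2)

lemma prob_map (s : Equiv.Perm (Fin n) × Equiv.Perm (Fin n)) (a : Fin n → Fin n → ℝ)
    (ha : ∀ i j, a (s.1 i) (s.2 j) = a i j) (R : Finset (Fin n × Fin n)) :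
    prob a (R.map (cell s).toEmbedding) = prob a R := by
  unfold prob
  have hc : (R.map (cell s).toEmbedding)ᶜ = Rᶜ.map (cell s).toEmbedding := by
    ext x
    simp only [Finset.mem_compl, Finset.mem_map_equiv]
  rw [hc, Finset.prod_map, Finset.prod_map]
  congr 1
  · apply Finset.prod_congr rfl
    intro e _
    exact ha e.1 e.2
  · apply Finset.prod_congr rfl
    intro e _
    have := ha e.1 e.2
    show 1 - a (s.1 e.1) (s.2 e.2) = 1 - a e.1 e.2
    rw [this]

lemma prob_nonneg (a : Fin n → Fin n → ℝ) (h0 : ∀ i j, 0 ≤ a i j) (h1 : ∀ i j, a i j ≤ 1)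
    (R : Finset (Fin n × Fin n)) : 0 ≤ prob a R := by
  unfold prob
  apply mul_nonneg
  · exact Finset.prod_nonneg fun e _ => h0 _ _
  · exact Finset.prod_nonneg fun e _ => by have := h1 e.1 e.2; linarith

/-- Moving the weights by a symmetry of the probabilities does not increase `Φ`. -/
lemma Phi_move_le (s : Equiv.Perm (Fin n) × Equiv.Perm (Fin n)) (a w : Fin n → Fin n → ℝ)
    (h0 : ∀ i j, 0 ≤ a i j) (h1 : ∀ i j, a i j ≤ 1)
    (ha : ∀ i j, a (s.1 i) (s.2 j) = a i j) : Phi a (move s w) ≤ Phi a w := by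
  unfold Phi
  calc ∑ R : Finset (Fin n × Fin n), prob a R * maxWeight (move s w) R
      ≤ ∑ R : Finset (Fin n × Fin n),
          prob a (R.map (cell s).toEmbedding) * maxWeight w (R.map (cell s).toEmbedding) := by
        apply Finset.sum_le_sum
        intro R _
        rw [prob_map s a ha]
        exact mul_le_mul_of_nonneg_left (maxWeight_move_le s w R) (prob_nonneg a h0 h1 R)
    _ = ∑ R : Finset (Fin n × Fin n), prob a R * maxWeight w R := by
        exact Equiv.sum_comp (Equiv.finsetCongr (cell s))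
          (fun R : Finset (Fin n × Fin n) => prob a R * maxWeight w R)

lemma maxWeight_average_le (G : Finset (Equiv.Perm (Fin n) × Equiv.Perm (Fin n)))
    (w : Fin n → Fin n → ℝ) (R : Finset (Fin n × Fin n)) :
    maxWeight (average G w) R ≤ (∑ s ∈ G, maxWeight (move s w) R) / (G.card : ℝ) := by
  apply maxWeight_le
  intro M hM hM2
  have h1 : ∑ e ∈ M, average G w e.1 e.2
      = (∑ s ∈ G, ∑ e ∈ M, move s w e.1 e.2) / (G.card : ℝ) := by
    unfold average move
    rw [← Finset.sum_div, Finset.sum_comm]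
  rw [h1]
  apply div_le_div_of_nonneg_right _ (Nat.cast_nonneg _)
  exact Finset.sum_le_sum fun s _ => le_maxWeight (move s w) hM hM2

/-- **Symmetrisation.** -/
lemma Phi_average_le (G : Finset (Equiv.Perm (Fin n) × Equiv.Perm (Fin n))) (hG : G.Nonempty)
    (a w : Fin n → Fin n → ℝ) (h0 : ∀ i j, 0 ≤ a i j) (h1 : ∀ i j, a i j ≤ 1)
    (ha : ∀ s ∈ G, ∀ i j, a (s.1 i) (s.2 j) = a i j) : Phi a (average G w) ≤ Phi a w := by
  have hc : (0 : ℝ) < (G.card : ℝ) := by exact_mod_cast hG.card_pos
  calc Phi a (average G w)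
      ≤ ∑ R : Finset (Fin n × Fin n),
          prob a R * ((∑ s ∈ G, maxWeight (move s w) R) / (G.card : ℝ)) := by
        unfold Phi
        apply Finset.sum_le_sum
        intro R _
        exact mul_le_mul_of_nonneg_left (maxWeight_average_le G w R) (prob_nonneg a h0 h1 R)
    _ = (∑ s ∈ G, Phi a (move s w)) / (G.card : ℝ) := by
        unfold Phi
        rw [Finset.sum_comm, Finset.sum_div]
        apply Finset.sum_congr rfl
        intro R _
        rw [← Finset.mul_sum]
        ring
    _ ≤ (∑ s ∈ G, Phi a w) / (G.card : ℝ) := by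
        apply div_le_div_of_nonneg_right _ hc.le
        exact Finset.sum_le_sum fun s hs => Phi_move_le s a w h0 h1 (ha s hs)
    _ = Phi a w := by
        rw [Finset.sum_const, nsmul_eq_mul]
        field_simp

lemma DoublyStochastic.le_one {a : Fin n → Fin n → ℝ} (h : DoublyStochastic a) (i j : Fin n) :
    a i j ≤ 1 := by
  rw [← h.row i]
  exact Finset.single_le_sum (f := fun j => a i j) (fun j _ => h.nonneg i j) (Finset.mem_univ j)

lemma total_move (s : Equiv.Perm (Fin n) × Equiv.Perm (Fin n)) (a w : Fin n → Fin n → ℝ)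
    (ha : ∀ i j, a (s.1 i) (s.2 j) = a i j) :
    ∑ i, ∑ j, w (s.1 i) (s.2 j) * a i j = ∑ i, ∑ j, w i j * a i j := by
  calc ∑ i, ∑ j, w (s.1 i) (s.2 j) * a i j
      = ∑ i, ∑ j, w (s.1 i) (s.2 j) * a (s.1 i) (s.2 j) := by
        apply Finset.sum_congr rfl; intro i _
        apply Finset.sum_congr rfl; intro j _
        rw [ha]
    _ = ∑ i, ∑ j, w (s.1 i) j * a (s.1 i) j := by
        apply Finset.sum_congr rfl; intro i _
        exact Equiv.sum_comp s.2 (fun j => w (s.1 i) j * a (s.1 i) j)
    _ = ∑ i, ∑ j, w i j * a i j :=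
        Equiv.sum_comp s.1 (fun i => ∑ j, w i j * a i j)

lemma admissible_average (G : Finset (Equiv.Perm (Fin n) × Equiv.Perm (Fin n))) (hG : G.Nonempty)
    (a w : Fin n → Fin n → ℝ) (h : Admissible a w)
    (ha : ∀ s ∈ G, ∀ i j, a (s.1 i) (s.2 j) = a i j) : Admissible a (average G w) := by
  have hc : (0 : ℝ) < (G.card : ℝ) := by exact_mod_cast hG.card_pos
  refine ⟨h.stoch, ?_, ?_⟩
  · intro i j
    unfold average
    apply div_nonneg _ hc.le
    exact Finset.sum_nonneg fun s _ => h.nonneg _ _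
  · have h1 : ∀ i j, average G w i j * a i j
        = (∑ s ∈ G, w (s.1 i) (s.2 j) * a i j) / (G.card : ℝ) := by
      intro i j
      unfold average
      rw [← Finset.sum_mul]
      ring
    calc ∑ i, ∑ j, average G w i j * a i j
        = ∑ i, ∑ j, (∑ s ∈ G, w (s.1 i) (s.2 j) * a i j) / (G.card : ℝ) := by
          apply Finset.sum_congr rfl; intro i _
          apply Finset.sum_congr rfl; intro j _
          exact h1 i j
      _ = (∑ s ∈ G, ∑ i, ∑ j, w (s.1 i) (s.2 j) * a i j) / (G.card : ℝ) := by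
          simp only [← Finset.sum_div]
          congr 1
          have h2 : ∑ s ∈ G, ∑ i, ∑ j, w (s.1 i) (s.2 j) * a i j
              = ∑ i, ∑ s ∈ G, ∑ j, w (s.1 i) (s.2 j) * a i j := Finset.sum_comm
          rw [h2]
          apply Finset.sum_congr rfl; intro i _
          exact Finset.sum_comm
      _ = (∑ s ∈ G, (1 : ℝ)) / (G.card : ℝ) := by
          congr 1
          apply Finset.sum_congr rfl; intro s hs
          rw [total_move s a w (ha s hs)]
          exact h.total
      _ = 1 := by
          rw [Finset.sum_const, nsmul_eq_mul, mul_one]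
          exact div_self hc.ne'

/-- The pair of cyclic shifts by `k` (rows) and `l` (columns). -/
def shift [NeZero n] (p : Fin n × Fin n) : Equiv.Perm (Fin n) × Equiv.Perm (Fin n) :=
  (Equiv.addLeft p.1, Equiv.addLeft p.2)

lemma shift_injective [NeZero n] : Function.Injective (shift : Fin n × Fin n → _) := by
  intro p q h
  have h1 := congrArg (fun s => s.1 0) h
  have h2 := congrArg (fun s => s.2 0) h
  simp only [shift, Equiv.coe_addLeft, add_zero] at h1 h2
  exact Prod.ext h1 h2

lemma average_shift [NeZero n] (w : Fin n → Fin n → ℝ) (i j : Fin n) :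
    average (Finset.univ.map ⟨shift, shift_injective⟩) w i j
      = (∑ i, ∑ j, w i j) / ((n : ℝ) * n) := by
  unfold average
  rw [Finset.sum_map, Finset.card_map, Finset.card_univ, Fintype.card_prod, Fintype.card_fin]
  rw [Fintype.sum_prod_type]
  congr 1
  · calc ∑ k : Fin n, ∑ l : Fin n, w (k + i) (l + j)
        = ∑ k : Fin n, ∑ l : Fin n, w (k + i) l := by
          apply Finset.sum_congr rfl; intro k _
          exact Equiv.sum_comp (Equiv.addRight j) (fun l => w (k + i) l)
      _ = ∑ k : Fin n, ∑ l : Fin n, w k l :=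
          Equiv.sum_comp (Equiv.addRight i) (fun k => ∑ l, w k l)
  · push_cast
    ring

/-- For the uniform probabilities the uniform weights are optimal. -/
lemma uniform_case {n : ℕ} (hn : 1 ≤ n) (w : Fin n → Fin n → ℝ)
    (h : Admissible (fun _ _ => (1 / n : ℝ)) w) :
    Phi (fun _ _ : Fin n => (1 / n : ℝ)) (fun _ _ => (1 / n : ℝ))
      ≤ Phi (fun _ _ => (1 / n : ℝ)) w := by
  have : NeZero n := ⟨by omega⟩
  have hn0 : (0 : ℝ) < n := by exact_mod_cast hn
  have key := Phi_average_le (Finset.univ.map ⟨shift, shift_injective⟩)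
    (by
      rw [Finset.map_nonempty]
      exact Finset.univ_nonempty)
    (fun _ _ : Fin n => (1 / n : ℝ)) w (fun _ _ => by positivity)
    (fun _ _ => by
      rw [div_le_one hn0]
      exact_mod_cast hn)
    (fun _ _ _ _ => rfl)
  have hsum : ∑ i, ∑ j, w i j = (n : ℝ) := by
    have h2 := h.total
    simp only [mul_one_div, ← Finset.sum_div] at h2
    rw [div_eq_one_iff_eq hn0.ne'] at h2
    exact h2
  have hav : average (Finset.univ.map ⟨shift, shift_injective⟩) w
      = fun _ _ : Fin n => (1 / n : ℝ) := by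
    funext i j
    rw [average_shift, hsum]
    field_simp
  rw [hav] at key
  exact key

end MP3bdb72H79
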